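import Pool.Agent.H43.PC.OccL

/-!
# Abelian varieties of Hilbert modular newforms and planar cubic hypersurfaces

A *gate* is one of the polynomials `x_a`, `x_a - 1`, `x_a - x_b`, `x_a + x_b - x_c`, `x_a x_b - x_c`.
A *lattice system* consists of `n` variables and `r` gates `p_g` with different places in the square
lattice `ℤ²` such that each gate is a neighbour of each of its (different) variables and each variable
is in at most three gates. Its *lattice cubic* is the smooth affine cubic hypersurface
`Z : ∑_g t_g p_g(x) = 1` of dimension `n + r - 1` in the affine space with the coordinates `x`, `t` over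
`ℚ`.

Let `F` be a totally real number field, `G_F` its Galois group, `f` a Hilbert newform over `F` of
parallel weight two with trivial central character, and `ρ_f` its representation.

The proof. Every integral affine scheme of dimension `m` of finite type over `ℚ` has a non-empty smooth
open subscheme which is the scheme of the solutions of a lattice system with `n = r + m`
(`Pool.Agent.H43.PC.exists_lat`). The lattice cubic is an affine bundle of rank `r - 1` over the
complement of this scheme in `𝔸^n`. So the weight `n + r - 2` of the cohomology with compact supports of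
`Z` in the middle degree `n + r - 1` is a Tate twist of the pure part of the cohomology with compact
supports of degree `n - r` of the scheme of the solutions. The reduction to this degree uses localization
sequences and the weak and the hard Lefschetz theorems.
-/

set_option autoImplicit false

open CategoryTheory CategoryTheory.Limits AlgebraicGeometry Pool.Agent.Y116.UV
  Pool.Agent.Y101.Th Pool.Agent.Y691.TU Pool.Agent.H71.AR Pool.Agent.H43.PC

namespace Pool.Agent.Results.MP_6cbef8_nt.LatticeCubics

universe v u v' u'

/-- **Hilbert newforms and lattice cubics.** Let `f` be a Hilbert newform over `F`.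

(1) The following are equivalent:

* there is a simple abelian variety `A_f` over `F` with `L(A_f, s) = Λ_f(s)`;
* there are a number `r` and a lattice system of `r` gates in `r + 1` variables such that the Tate twist
  `ρ_f(1 - r)` is a subquotient of `gr^W_(2r-1) H^(2r)_c(Z)`, restricted to `G_F`, for its lattice cubic
  `Z`, a hypersurface of dimension `2 r`;
* the same for a lattice system whose scheme of solutions is a smooth integral curve.

(2) For all `N` the following are equivalent:

* a Tate twist `ρ_f(-j)` is a subquotient of `H^(2j+1)(Y)` for a smooth projective scheme `Y` over `ℚ` of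
  dimension at most `N` and some `j`;
* a Tate twist `ρ_f(-j)`, `2 j + 1 = n + r - 2`, is a subquotient of `gr^W_(n+r-2) H^(n+r-1)_c(Z)` for the
  lattice cubic `Z` of a lattice system of `r` gates in `n ≤ r + N` variables;
* the same for a lattice system whose scheme of solutions is integral, smooth and of dimension
  `n - r ≤ N`. -/
theorem result {F : Type} [Field F] [NumberField F] [NumberField.IsTotallyReal F]
    -- pure motives over `ℚ` and the weight graded pieces of the cohomology with compact supports
    {C : Type u} [Category.{v} C] [Abelian C] (hC : Semisimple C) {D : Graded ℚ C} (hD : IsCohB D)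
    -- representations of the Galois group of `F`, Hilbert newforms and abelian varieties
    {𝓡 : Type u'} [Category.{v'} 𝓡] [Abelian 𝓡] {T : HilbertData F C 𝓡} (hT : IsHilbert D T)
    (f : T.Form) :
    List.TFAE [
      Attached T f,
      ∃ (r : ℕ) (γ : Fin r → Gate ℚ (Fin (r + 1))), OnLattice {0, 1} γ ∧ OccursOnOne D T f γ,
      ∃ (r : ℕ) (γ : Fin r → Gate ℚ (Fin (r + 1))), LatCI γ 1 ∧ OccursOnOne D T f γ] ∧
    ∀ N : ℕ, List.TFAE [
      ∃ (Y : Sch ℚ) (j : ℤ), SmProj Y ∧ topologicalKrullDim Y.left ≤ N ∧
        OccursIn (T.rho f j) (T.real.obj (D.H Y (2 * j + 1) (2 * j + 1))),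
      ∃ (n r : ℕ) (γ : Fin r → Gate ℚ (Fin n)), OnLattice {0, 1} γ ∧ n ≤ r + N ∧ OccursOn D T f γ,
      ∃ (n r m : ℕ) (γ : Fin r → Gate ℚ (Fin n)), LatCI γ m ∧ m ≤ N ∧ OccursOn D T f γ] :=
  ⟨occ_lat_one hC hD hT f, occ_lat_dim hC hD hT f⟩

end Pool.Agent.Results.MP_6cbef8_nt.LatticeCubics
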