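import Pool.Agent.H71.AR.Occ

/-!
# Abelian varieties attached to Hilbert newforms and moduli spaces of line arrangements

A moduli space of line arrangements parametrises the arrangements which consist of the four lines
`X = 0`, `Y = 0`, `Z = 0`, `X + Y + Z = 0` and of `a` lines `X + x_i Y + y_i Z = 0` and `b` lines
`Y + z_j Z = 0` in the projective plane such that exactly the triples of lines in a given set `S` are
not concurrent. `ArrAlg k N` says that `N` is the algebra of functions on such a moduli space over `k`
(it represents the functor of these arrangements) and that the lines are pairwise distinct.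

Let `F` be a totally real number field and `f` a Hilbert newform over `F` of parallel weight two with
trivial central character, with the `ℓ`-adic representation `ρ_f` of the Galois group `G_F`.
`D.H X w n` is the weight graded piece `gr^W_w H^n_c(X)` in a semisimple category of pure motives over
`ℚ` (motives for absolute Hodge cycles), and `T.real` is the `ℓ`-adic realization, restricted to `G_F`.

The proof uses a form of the universality theorem of Mnëv, Sturmfels and Lafforgue which preserves the
dimension: every integral affine scheme of finite type over `ℚ` has a non-empty smooth open subscheme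
which is isomorphic to a moduli space of line arrangements (`Pool.Agent.H71.AR.exists_nice`).
-/

set_option autoImplicit false

open CategoryTheory CategoryTheory.Limits AlgebraicGeometry Pool.Agent.Y116.UV
  Pool.Agent.Y101.Th Pool.Agent.Y691.TU Pool.Agent.H71.AR

namespace Pool.Agent.Results.MP_6cbef8_nt.LineArrangements

universe v u v' u'

/-- **Hilbert newforms and line arrangements.** Let `f` be a Hilbert newform over `F`.

(1) There is a simple abelian variety `A_f` over `F` with `L(A_f, s) = Λ_f(s)` if and only if there is a
smooth integral moduli space `N` of line arrangements over `ℚ` of dimension one such that `ρ_f` is a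
subquotient of `gr^W_1 H^1_c(N)`, restricted to `G_F`.

(2) For all `n`, a Tate twist `ρ_f(-j)` is a subquotient of `H^(2j+1)(Y)` for a smooth projective scheme
`Y` over `ℚ` of dimension at most `n` and some `j` if and only if this is true for the middle piece
`gr^W_m H^m_c(N)`, `m = 2 j + 1 = dim N ≤ n`, of a smooth integral moduli space `N` of line
arrangements over `ℚ`. -/
theorem result {F : Type} [Field F] [NumberField F] [NumberField.IsTotallyReal F]
    -- pure motives over `ℚ` and the weight graded pieces of the cohomology with compact supports
    {C : Type u} [Category.{v} C] [Abelian C] (hC : Semisimple C) {D : Graded ℚ C} (hD : IsCoh D)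
    -- representations of the Galois group of `F`, Hilbert newforms and abelian varieties
    {𝓡 : Type u'} [Category.{v'} 𝓡] [Abelian 𝓡] {T : HilbertData F C 𝓡} (hT : IsHilbert D T)
    (f : T.Form) :
    (Attached T f ↔
      ∃ (N : Type) (_ : CommRing N) (_ : IsDomain N) (_ : Algebra ℚ N) (_ : Algebra.Smooth ℚ N),
        ArrAlg ℚ N ∧ ringKrullDim N = (1 : ℕ) ∧
          OccursIn (T.rho f 0) (T.real.obj (D.H (aff ℚ N) 1 1))) ∧
    ∀ n : ℕ, (∃ (Y : Sch ℚ) (j : ℤ), SmProj Y ∧ topologicalKrullDim Y.left ≤ n ∧
        OccursIn (T.rho f j) (T.real.obj (D.H Y (2 * j + 1) (2 * j + 1)))) ↔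
      ∃ (N : Type) (_ : CommRing N) (_ : IsDomain N) (_ : Algebra ℚ N) (_ : Algebra.Smooth ℚ N)
        (m : ℕ) (j : ℤ), ArrAlg ℚ N ∧ ringKrullDim N = m ∧ m ≤ n ∧ (m : ℤ) = 2 * j + 1 ∧
          OccursIn (T.rho f j) (T.real.obj (D.H (aff ℚ N) m m)) :=
  ⟨occ_one hC hD hT f, occ_dim hC hD hT f⟩

end Pool.Agent.Results.MP_6cbef8_nt.LineArrangements
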